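import Pool.Agent.W2helper53.TN.Bas

/-!
# The Lie algebra of the alternating `6 × 6` matrices is simple
-/

set_option autoImplicit false
set_option linter.unusedSimpArgs false

namespace Pool.Agent.W2helper53.TN

open Pool.Agent.W2helper84.TN

attribute [local instance 100] LieRing.ofAssociativeRing

variable (K : Type*) [Field K] [CharP K 2]

theorem lie_FF (i j k : Fin 6) (hij : i ≠ j) (hjk : j ≠ k) (hik : i ≠ k) :
    ⁅F K i j, F K j k⁆ = F K i k := by
  apply Subtype.ext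
  ext a b
  rw [lieF_apply K i j hij]
  simp only [F_apply]
  have h2 : (1 : K) + 1 = 0 := add_self_eq 1
  have h3 : (-1 : K) = 1 := by linear_combination -h2
  by_cases h4 : a = i <;> by_cases h5 : a = j <;> by_cases h6 : b = i <;> by_cases h7 : b = j <;>
    by_cases h8 : a = k <;> by_cases h9 : b = k <;> simp_all

theorem hh_apply (i j : Fin 6) (hij : i ≠ j) (x : Alt K) (a b : Fin 6) (hab : a ≠ b) :
    (⁅F K i j, ⁅F K i j, x⁆⁆ : Alt K).1 a b
      = if ((a = i ∨ b = i) ↔ (a = j ∨ b = j)) then 0 else x.1 a b := by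
  have h2 : ∀ t : K, t + t = 0 := add_self_eq
  rw [lieF_apply K i j hij, lieF_apply K i j hij, lieF_apply K i j hij, lieF_apply K i j hij,
    lieF_apply K i j hij]
  have hs := symm_apply K x
  have hd := diag_apply K x
  by_cases h4 : a = i
  · by_cases h5 : a = j
    · exact absurd (h4.symm.trans h5) hij
    · by_cases h7 : b = j
      · subst h4 h7
        simp [hd, hs b a, hij, hij.symm]
      · have h8 : b ≠ i := fun h => hab (h4.trans h.symm)
        subst h4
        simp [hd, h5, h7, hij, hij.symm, hab.symm]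
  · by_cases h5 : a = j
    · by_cases h6 : b = i
      · subst h5 h6
        simp [hd, hs b a, hij, hij.symm]
      · have h8 : b ≠ j := fun h => hab (h5.trans h.symm)
        subst h5
        simp [hd, h4, h6, hij, hij.symm, hab.symm]
    · by_cases h6 : b = i
      · subst h6
        simp [hd, h4, h5, hij, hij.symm, hab]
      · by_cases h7 : b = j
        · subst h7
          simp [hd, h4, h5, h6, hij, hij.symm, hab]
        · simp [h4, h5, h6, h7]

theorem exists_three : ∀ i j : Fin 6, ∃ k l m : Fin 6, k ≠ i ∧ k ≠ j ∧ l ≠ i ∧ l ≠ j ∧ m ≠ i ∧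
    m ≠ j ∧ k ≠ l ∧ k ≠ m ∧ l ≠ m := by decide

theorem project (i j k l m : Fin 6) (hij : i ≠ j) (hki : k ≠ i) (hkj : k ≠ j) (hli : l ≠ i)
    (hlj : l ≠ j) (hmi : m ≠ i) (hmj : m ≠ j) (hkl : k ≠ l) (hkm : k ≠ m) (hlm : l ≠ m)
    (x : Alt K) :
    ⁅F K j m, ⁅F K j m, ⁅F K i m, ⁅F K i m, ⁅F K j l, ⁅F K j l, ⁅F K i k, ⁅F K i k, x⁆⁆⁆⁆⁆⁆⁆⁆
      = x.1 i j • F K i j := by
  apply Subtype.ext
  ext a b
  by_cases hab : a = b
  · rw [hab, diag_apply]
    have : (x.1 i j • F K i j).1 b b = 0 := diag_apply K _ b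
    exact this.symm
  have e : (x.1 i j • F K i j).1 a b = x.1 i j * (F K i j).1 a b := rfl
  rw [e, hh_apply K j m hmj.symm _ a b hab, hh_apply K i m hmi.symm _ a b hab,
    hh_apply K j l hlj.symm _ a b hab, hh_apply K i k hki.symm _ a b hab]
  by_cases h : (a = i ∧ b = j) ∨ (b = i ∧ a = j)
  · have e2 : (F K i j).1 a b = 1 := by rw [F_apply, if_pos ⟨hij, h⟩]
    rw [e2, mul_one]
    rcases h with ⟨rfl, rfl⟩ | ⟨rfl, rfl⟩
    · simp [hki.symm, hkj.symm, hli.symm, hlj.symm, hmi.symm, hmj.symm]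
    · rw [symm_apply K x a b]
      simp [hki.symm, hkj.symm, hli.symm, hlj.symm, hmi.symm, hmj.symm]
  · have e2 : (F K i j).1 a b = 0 := by rw [F_apply, if_neg (fun h1 => h h1.2)]
    rw [e2, mul_zero]
    by_cases c1 : ((a = j ∨ b = j) ↔ (a = m ∨ b = m))
    · rw [if_pos c1]
    by_cases c2 : ((a = i ∨ b = i) ↔ (a = m ∨ b = m))
    · rw [if_neg c1, if_pos c2]
    by_cases c3 : ((a = j ∨ b = j) ↔ (a = l ∨ b = l))
    · rw [if_neg c1, if_neg c2, if_pos c3]
    by_cases c4 : ((a = i ∨ b = i) ↔ (a = k ∨ b = k))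
    · rw [if_neg c1, if_neg c2, if_neg c3, if_pos c4]
    · exfalso
      grind

theorem ideal_top (I : LieIdeal K (Alt K)) (hI : I ≠ ⊥) : I = ⊤ := by
  have h0 : ∃ x ∈ I, x ≠ 0 := by
    by_contra hcon
    push Not at hcon
    exact hI ((LieSubmodule.eq_bot_iff I).2 hcon)
  obtain ⟨x, hx, hx0⟩ := h0
  have h1 : ∃ i j, x.1 i j ≠ 0 := by
    by_contra hcon
    push Not at hcon
    apply hx0
    apply Subtype.ext
    ext a b
    rw [hcon a b]
    rfl
  obtain ⟨i, j, hxij⟩ := h1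
  have hij : i ≠ j := by
    rintro rfl
    exact hxij (diag_apply K x i)
  obtain ⟨k, l, m, h2, h3, h4, h5, h6, h7, h8, h9, h10⟩ := exists_three i j
  have hF : F K i j ∈ I := by
    have h11 := project K i j k l m hij h2 h3 h4 h5 h6 h7 h8 h9 h10 x
    have h12 : x.1 i j • F K i j ∈ I := by
      rw [← h11]
      have hh : ∀ a b : Fin 6, ∀ y ∈ I, ⁅F K a b, ⁅F K a b, y⁆⁆ ∈ I := fun a b y hy =>
        lie_mem_right K (Alt K) I _ _ (lie_mem_right K (Alt K) I _ _ hy)
      exact hh _ _ _ (hh _ _ _ (hh _ _ _ (hh _ _ _ hx)))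
    have h13 := I.smul_mem (x.1 i j)⁻¹ h12
    rwa [smul_smul, inv_mul_cancel₀ hxij, one_smul] at h13
  -- all `F i k`
  have hFi : ∀ k, k ≠ i → F K i k ∈ I := by
    intro k hk
    by_cases hkj : k = j
    · rw [hkj]; exact hF
    · rw [← lie_FF K i j k hij (fun h => hkj h.symm) (fun h => hk h.symm)]
      exact lie_mem_left K (Alt K) I _ _ hF
  have hFF : ∀ k l, k ≠ l → F K k l ∈ I := by
    intro k l hkl
    by_cases hki : k = i
    · rw [hki]
      exact hFi l (fun h => hkl (hki.trans h.symm))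
    · by_cases hli : l = i
      · rw [hli, F_symm]
        exact hFi k hki
      · rw [← lie_FF K k i l hki (fun h => hli h.symm) hkl]
        exact lie_mem_right K (Alt K) I _ _ (hFi l hli)
  rw [eq_top_iff]
  intro y _
  rw [eq_sum K y]
  refine sum_mem fun p _ => I.smul_mem _ ?_
  rw [E_eq_F]
  exact hFF _ _ p.2.ne

/-- Piece SIM -/
theorem sim : StmSIM K := by
  refine ⟨?_, ?_⟩
  · intro I
    by_cases hI : I = ⊥
    · exact Or.inl hI
    · exact Or.inr (ideal_top K I hI)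
  · intro h
    have h1 : ⁅F K 0 1, F K 1 2⁆ = (0 : Alt K) := h.trivial _ _
    rw [lie_FF K 0 1 2 (by decide) (by decide) (by decide)] at h1
    have h2 : (F K 0 2).1 0 2 = 0 := by rw [h1]; rfl
    rw [F_apply, if_pos ⟨by decide, Or.inl ⟨rfl, rfl⟩⟩] at h2
    exact one_ne_zero h2

end Pool.Agent.W2helper53.TN
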