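import Pool.Agent.W2helper84.TN.Stm

/-!
# Alternating matrices: the elements `F i j` and their brackets
-/

set_option autoImplicit false

namespace Pool.Agent.W2helper53.TN

open Pool.Agent.W2helper84.TN

attribute [local instance 100] LieRing.ofAssociativeRing

variable (K : Type*) [Field K] [CharP K 2]

/-- the matrix `E_ij + E_ji` for `i ≠ j`, and zero for `i = j` -/
def F (i j : Fin 6) : Alt K :=
  ⟨fun a b => if i ≠ j ∧ ((a = i ∧ b = j) ∨ (b = i ∧ a = j)) then 1 else 0, by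
    refine ⟨fun a b => ?_, fun a => ?_⟩
    · simp only [or_comm]
    · have : ¬ (i ≠ j ∧ ((a = i ∧ a = j) ∨ (a = i ∧ a = j))) := by
        rintro ⟨h, ⟨h1, h2⟩ | ⟨h1, h2⟩⟩ <;> exact h (h1.symm.trans h2)
      exact if_neg this⟩

theorem F_apply (i j a b : Fin 6) :
    (F K i j).1 a b = if i ≠ j ∧ ((a = i ∧ b = j) ∨ (b = i ∧ a = j)) then 1 else 0 := rfl

theorem F_symm (i j : Fin 6) : F K i j = F K j i := by
  apply Subtype.ext
  ext a b
  rw [F_apply, F_apply]
  congr 1
  apply propext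
  constructor
  · rintro ⟨h, h1 | h1⟩
    · exact ⟨h.symm, Or.inr ⟨h1.2, h1.1⟩⟩
    · exact ⟨h.symm, Or.inl ⟨h1.2, h1.1⟩⟩
  · rintro ⟨h, h1 | h1⟩
    · exact ⟨h.symm, Or.inr ⟨h1.2, h1.1⟩⟩
    · exact ⟨h.symm, Or.inl ⟨h1.2, h1.1⟩⟩

theorem E_eq_F (p : P) : E K p = F K p.1.1 p.1.2 := by
  apply Subtype.ext
  ext a b
  rw [F_apply]
  change (if (a = p.1.1 ∧ b = p.1.2) ∨ (b = p.1.1 ∧ a = p.1.2) then (1 : K) else 0) = _
  congr 1
  apply propext
  exact ⟨fun h => ⟨p.2.ne, h⟩, fun h => h.2⟩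

theorem symm_apply (x : Alt K) (a b : Fin 6) : x.1 a b = x.1 b a := x.2.1 a b

theorem diag_apply (x : Alt K) (a : Fin 6) : x.1 a a = 0 := x.2.2 a

theorem lie_apply (x y : Alt K) (a b : Fin 6) :
    (⁅x, y⁆ : Alt K).1 a b = ∑ c, x.1 a c * y.1 c b - ∑ c, y.1 a c * x.1 c b := by
  have h : (⁅x, y⁆ : Alt K).1 = x.1 * y.1 - y.1 * x.1 := by
    rw [LieSubalgebra.coe_bracket, Ring.lie_def]
  rw [h, Matrix.sub_apply, Matrix.mul_apply, Matrix.mul_apply]

theorem lieF_apply (i j : Fin 6) (hij : i ≠ j) (x : Alt K) (a b : Fin 6) :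
    (⁅F K i j, x⁆ : Alt K).1 a b = ((if a = i then x.1 j b else 0) + (if a = j then x.1 i b else 0))
      - ((if b = j then x.1 a i else 0) + (if b = i then x.1 a j else 0)) := by
  rw [lie_apply]
  congr 1
  · have : ∀ c, (F K i j).1 a c * x.1 c b
        = (if a = i ∧ c = j then x.1 j b else 0) + (if a = j ∧ c = i then x.1 i b else 0) := by
      intro c
      rw [F_apply]
      by_cases h1 : a = i ∧ c = j
      · rw [if_pos ⟨hij, Or.inl h1⟩, if_pos h1, one_mul, if_neg, add_zero, h1.2]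
        rintro ⟨h2, h3⟩
        exact hij (h1.1.symm.trans h2)
      · by_cases h2 : a = j ∧ c = i
        · rw [if_pos ⟨hij, Or.inr ⟨h2.2, h2.1⟩⟩, if_neg h1, if_pos h2, one_mul, zero_add, h2.2]
        · rw [if_neg, if_neg h1, if_neg h2, zero_mul, add_zero]
          rintro ⟨_, h3 | h3⟩
          · exact h1 h3
          · exact h2 ⟨h3.2, h3.1⟩
    rw [Finset.sum_congr rfl fun c _ => this c, Finset.sum_add_distrib]
    congr 1
    · by_cases h : a = i
      · simp [h]
      · simp [h]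
    · by_cases h : a = j
      · simp [h]
      · simp [h]
  · have : ∀ c, x.1 a c * (F K i j).1 c b
        = (if b = j ∧ c = i then x.1 a i else 0) + (if b = i ∧ c = j then x.1 a j else 0) := by
      intro c
      rw [F_apply]
      by_cases h1 : b = j ∧ c = i
      · rw [if_pos ⟨hij, Or.inl ⟨h1.2, h1.1⟩⟩, if_pos h1, mul_one, if_neg, add_zero, h1.2]
        rintro ⟨h2, h3⟩
        exact hij (h2.symm.trans h1.1)
      · by_cases h2 : b = i ∧ c = j
        · rw [if_pos ⟨hij, Or.inr h2⟩, if_neg h1, if_pos h2, mul_one, zero_add, h2.2]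
        · rw [if_neg, if_neg h1, if_neg h2, mul_zero, add_zero]
          rintro ⟨_, h3 | h3⟩
          · exact h1 ⟨h3.2, h3.1⟩
          · exact h2 h3
    rw [Finset.sum_congr rfl fun c _ => this c, Finset.sum_add_distrib]
    congr 1
    · by_cases h : b = j
      · simp [h]
      · simp [h]
    · by_cases h : b = i
      · simp [h]
      · simp [h]

/-- every alternating matrix is a combination of the `E p` -/
theorem eq_sum (x : Alt K) : x = ∑ p : P, x.1 p.1.1 p.1.2 • E K p := by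
  have key : ∀ (y : Alt K) (c d : Fin 6) (h : c < d),
      (∑ p : P, y.1 p.1.1 p.1.2 • E K p : Alt K).1 c d = y.1 c d := by
    intro y c d h
    have e1 : (∑ p : P, y.1 p.1.1 p.1.2 • E K p : Alt K).1 c d
        = ∑ p : P, y.1 p.1.1 p.1.2 * (E K p).1 c d := by
      have : ((∑ p : P, y.1 p.1.1 p.1.2 • E K p : Alt K) : Mat K)
          = ∑ p : P, y.1 p.1.1 p.1.2 • (E K p).1 := by
        rw [← LieSubalgebra.coe_incl, ← LieHom.coe_toLinearMap, map_sum]
        rfl
      rw [this, Matrix.sum_apply]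
      rfl
    rw [e1, Finset.sum_eq_single ⟨(c, d), h⟩]
    · rw [E_eq_F, F_apply, if_pos ⟨h.ne, Or.inl ⟨rfl, rfl⟩⟩, mul_one]
    · intro p _ hp
      rw [E_eq_F, F_apply, if_neg, mul_zero]
      rintro ⟨h1, h2 | h2⟩
      · apply hp
        apply Subtype.ext
        exact Prod.ext h2.1.symm h2.2.symm
      · have h3 := p.2
        rw [← h2.1, ← h2.2] at h3
        exact absurd h (not_lt.2 h3.le)
    · intro h1
      exact absurd (Finset.mem_univ _) h1
  apply Subtype.ext
  ext c d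
  rcases lt_trichotomy c d with h | h | h
  · rw [key x c d h]
  · rw [h, diag_apply, diag_apply]
  · rw [symm_apply K _ c d, symm_apply K _ c d, key x d c h]

end Pool.Agent.W2helper53.TN
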