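import Pool.Agent.W2helper53.TN.Sim

/-!
# Simple graded subalgebras of the alternating matrices
-/

set_option autoImplicit false
set_option linter.unusedSimpArgs false

namespace Pool.Agent.W2helper53.TN

open Pool.Agent.W2helper84.TN

attribute [local instance 100] LieRing.ofAssociativeRing

variable (K : Type*) [Field K] [CharP K 2]

theorem E_apply_self (p : P) : (E K p).1 p.1.1 p.1.2 = 1 := by
  rw [E_eq_F, F_apply, if_pos ⟨p.2.ne, Or.inl ⟨rfl, rfl⟩⟩]

theorem E_apply_ne (p q : P) (h : p ≠ q) : (E K p).1 q.1.1 q.1.2 = 0 := by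
  rw [E_eq_F, F_apply, if_neg]
  rintro ⟨h1, h2 | h2⟩
  · exact h (Subtype.ext (Prod.ext h2.1.symm h2.2.symm))
  · have h3 := p.2
    rw [← h2.1, ← h2.2] at h3
    exact absurd q.2 (not_lt.2 h3.le)

/-- the coefficient at `q` -/
def coef (q : P) : Alt K →ₗ[K] K where
  toFun x := x.1 q.1.1 q.1.2
  map_add' _ _ := rfl
  map_smul' _ _ := rfl

theorem coef_E (p q : P) : coef K q (E K p) = if p = q then 1 else 0 := by
  by_cases h : p = q
  · rw [if_pos h, h]; exact E_apply_self K q
  · rw [if_neg h]; exact E_apply_ne K p q h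

theorem linInd : LinearIndependent K (E K) := by
  rw [Fintype.linearIndependent_iff]
  intro g hg q
  have h := congrArg (coef K q) hg
  rw [map_sum, map_zero] at h
  simp only [map_smul, coef_E, smul_eq_mul, mul_ite, mul_one, mul_zero, Finset.sum_ite_eq',
    Finset.mem_univ, if_true] at h
  exact h

section

variable (S : Set P) (M : LieSubalgebra K (Alt K))
  (hM : M.toSubmodule = Submodule.span K (E K '' S))
include hM

theorem coef_eq_zero {x : Alt K} (hx : x ∈ M) (q : P) (hq : q ∉ S) : coef K q x = 0 := by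
  have hx' : x ∈ Submodule.span K (E K '' S) := by rw [← hM]; exact hx
  have hle : Submodule.span K (E K '' S) ≤ LinearMap.ker (coef K q) := by
    rw [Submodule.span_le]
    rintro _ ⟨p, hp, rfl⟩
    rw [SetLike.mem_coe, LinearMap.mem_ker, coef_E, if_neg]
    rintro rfl
    exact hq hp
  exact hle hx'

theorem E_mem {p : P} (hp : p ∈ S) : E K p ∈ M := by
  change E K p ∈ M.toSubmodule
  rw [hM]
  exact Submodule.subset_span ⟨p, hp, rfl⟩

theorem mem_iff (p : P) : p ∈ S ↔ F K p.1.1 p.1.2 ∈ M := by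
  rw [← E_eq_F]
  constructor
  · exact E_mem K S M hM
  · intro h
    by_contra hp
    have := coef_eq_zero K S M hM h p hp
    rw [coef_E, if_pos rfl] at this
    exact one_ne_zero this

theorem F_mem_of_ne {x : Alt K} (hx : x ∈ M) (a b : Fin 6) (h : x.1 a b ≠ 0) : F K a b ∈ M := by
  rcases lt_trichotomy a b with h1 | h1 | h1
  · by_contra hcon
    exact h (coef_eq_zero K S M hM hx ⟨(a, b), h1⟩ fun h2 =>
      hcon ((mem_iff K S M hM ⟨(a, b), h1⟩).1 h2))
  · exfalso
    rw [h1] at h
    exact h (diag_apply K x b)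
  · rw [F_symm]
    by_contra hcon
    rw [symm_apply] at h
    exact h (coef_eq_zero K S M hM hx ⟨(b, a), h1⟩ fun h2 =>
      hcon ((mem_iff K S M hM ⟨(b, a), h1⟩).1 h2))

end

theorem F_trans (M : LieSubalgebra K (Alt K)) (i j k : Fin 6) (hij : i ≠ j) (hjk : j ≠ k)
    (hik : i ≠ k) (h1 : F K i j ∈ M) (h2 : F K j k ∈ M) : F K i k ∈ M := by
  rw [← lie_FF K i j k hij hjk hik]
  exact M.lie_mem h1 h2

theorem count : ∀ A : Finset (Fin 6),
    (Finset.univ.filter fun p : P => p.1.1 ∈ A ∧ p.1.2 ∈ A).card = A.card.choose 2 := by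
  decide +kernel

/-- a nonzero entry of a bracket -/
theorem lie_entry (x y : Alt K) (a b : Fin 6) (h : (⁅x, y⁆ : Alt K).1 a b ≠ 0) :
    ∃ c, (x.1 a c ≠ 0 ∧ y.1 c b ≠ 0) ∨ (y.1 a c ≠ 0 ∧ x.1 c b ≠ 0) := by
  by_contra hcon
  push Not at hcon
  apply h
  rw [lie_apply, Finset.sum_eq_zero, Finset.sum_eq_zero, sub_zero]
  · intro c _
    by_cases h1 : y.1 a c = 0
    · rw [h1, zero_mul]
    · rw [(hcon c).2 h1, mul_zero]
  · intro c _
    by_cases h1 : x.1 a c = 0
    · rw [h1, zero_mul]
    · rw [(hcon c).1 h1, mul_zero]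

/-- Piece GRD -/
theorem grd : StmGRD K := by
  classical
  intro S M hM hsimple
  -- three related indices
  have h3 : ∃ i j k : Fin 6, i ≠ j ∧ j ≠ k ∧ i ≠ k ∧ F K i j ∈ M ∧ F K j k ∈ M := by
    by_contra hcon
    push Not at hcon
    apply hsimple.non_abelian
    refine ⟨fun x y => ?_⟩
    apply Subtype.ext
    apply Subtype.ext
    ext a b
    by_contra hne
    have hne' : (⁅(x : Alt K), (y : Alt K)⁆ : Alt K).1 a b ≠ 0 := hne
    have hab : a ≠ b := by
      rintro rfl
      exact hne' (diag_apply K _ a)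
    obtain ⟨c, ⟨h1, h2⟩ | ⟨h1, h2⟩⟩ := lie_entry K _ _ a b hne'
    · have hac : a ≠ c := by
        rintro rfl
        exact h1 (diag_apply K _ a)
      have hcb : c ≠ b := by
        rintro rfl
        exact h2 (diag_apply K _ c)
      exact hcon a c b hac hcb hab (F_mem_of_ne K S M hM x.2 a c h1)
        (F_mem_of_ne K S M hM y.2 c b h2)
    · have hac : a ≠ c := by
        rintro rfl
        exact h1 (diag_apply K _ a)
      have hcb : c ≠ b := by
        rintro rfl
        exact h2 (diag_apply K _ c)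
      exact hcon a c b hac hcb hab (F_mem_of_ne K S M hM y.2 a c h1)
        (F_mem_of_ne K S M hM x.2 c b h2)
  obtain ⟨i, j, k, hij, hjk, hik, hFij, hFjk⟩ := h3
  have hFik : F K i k ∈ M := F_trans K M i j k hij hjk hik hFij hFjk
  let A : Finset (Fin 6) := Finset.univ.filter fun a => a = i ∨ (i ≠ a ∧ F K i a ∈ M)
  have hA : ∀ a, a ∈ A ↔ (a = i ∨ (i ≠ a ∧ F K i a ∈ M)) := fun a => by simp [A]
  have hAiff : ∀ a b, a ∈ A → b ≠ a → F K b a ∈ M → b ∈ A := by
    intro a b ha hba hF
    rw [hA] at ha ⊢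
    by_cases hb : b = i
    · exact Or.inl hb
    right
    refine ⟨fun h => hb h.symm, ?_⟩
    rcases ha with rfl | ⟨h1, h2⟩
    · rw [F_symm]; exact hF
    · exact F_trans K M i a b h1 (fun h => hba h.symm) (fun h => hb h.symm) h2
        (by rw [F_symm]; exact hF)
  -- the ideal of the elements supported on `A`
  let J : LieIdeal K M :=
    { carrier := {x | ∀ a b, (x : Alt K).1 a b ≠ 0 → a ∈ A ∧ b ∈ A}
      add_mem' := by
        intro x y hx hy a b h
        by_cases h1 : (x : Alt K).1 a b = 0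
        · apply hy a b
          intro h2
          apply h
          have : ((x + y : M) : Alt K).1 a b = (x : Alt K).1 a b + (y : Alt K).1 a b := rfl
          rw [this, h1, h2, add_zero]
        · exact hx a b h1
      zero_mem' := by
        intro a b h
        exact absurd rfl h
      smul_mem' := by
        intro t x hx a b h
        apply hx a b
        intro h2
        apply h
        have : ((t • x : M) : Alt K).1 a b = t * (x : Alt K).1 a b := rfl
        rw [this, h2, mul_zero]
      lie_mem := by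
        intro y x hx a b h
        have hne' : (⁅(y : Alt K), (x : Alt K)⁆ : Alt K).1 a b ≠ 0 := h
        obtain ⟨c, ⟨h1, h2⟩ | ⟨h1, h2⟩⟩ := lie_entry K _ _ a b hne'
        · obtain ⟨h4, h5⟩ := hx c b h2
          have hac : a ≠ c := by
            rintro rfl
            exact h1 (diag_apply K _ a)
          exact ⟨hAiff c a h4 hac (F_mem_of_ne K S M hM y.2 a c h1), h5⟩
        · obtain ⟨h4, h5⟩ := hx a c h1
          have hcb : c ≠ b := by
            rintro rfl
            exact h2 (diag_apply K _ c)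
          refine ⟨h4, hAiff c b h5 hcb.symm ?_⟩
          rw [F_symm]
          exact F_mem_of_ne K S M hM y.2 c b h2 }
  have hJ : ∀ x : M, x ∈ J ↔ ∀ a b, (x : Alt K).1 a b ≠ 0 → a ∈ A ∧ b ∈ A := fun x => Iff.rfl
  have hiA : i ∈ A := (hA i).2 (Or.inl rfl)
  have hjA : j ∈ A := (hA j).2 (Or.inr ⟨hij, hFij⟩)
  have hkA : k ∈ A := (hA k).2 (Or.inr ⟨hik, hFik⟩)
  have hJtop : J = ⊤ := by
    rcases hsimple.eq_bot_or_eq_top J with h | h
    · exfalso
      have h1 : (⟨F K i j, hFij⟩ : M) ∈ J := by
        rw [hJ]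
        intro a b h2
        have h3 : (F K i j).1 a b ≠ 0 := h2
        rw [F_apply] at h3
        have h4 : i ≠ j ∧ ((a = i ∧ b = j) ∨ (b = i ∧ a = j)) := by
          by_contra hcon
          rw [if_neg hcon] at h3
          exact h3 rfl
        rcases h4.2 with ⟨h5, h6⟩ | ⟨h5, h6⟩
        · rw [h5, h6]; exact ⟨hiA, hjA⟩
        · rw [h5, h6]; exact ⟨hjA, hiA⟩
      rw [h, LieSubmodule.mem_bot] at h1
      have h2 : F K i j = 0 := congrArg Subtype.val h1
      have h3 : (F K i j).1 i j = 0 := by rw [h2]; rfl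
      rw [F_apply, if_pos ⟨hij, Or.inl ⟨rfl, rfl⟩⟩] at h3
      exact one_ne_zero h3
    · exact h
  have hS : ∀ p : P, p ∈ S ↔ (p.1.1 ∈ A ∧ p.1.2 ∈ A) := by
    intro p
    constructor
    · intro hp
      have h1 : (⟨E K p, E_mem K S M hM hp⟩ : M) ∈ J := by rw [hJtop]; trivial
      rw [hJ] at h1
      apply h1
      change (E K p).1 p.1.1 p.1.2 ≠ 0
      rw [E_apply_self]
      exact one_ne_zero
    · rintro ⟨h1, h2⟩
      rw [mem_iff K S M hM]
      rw [hA] at h1 h2
      have hp := p.2.ne
      rcases h1 with h1 | ⟨h1, h3⟩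
      · rcases h2 with h2 | ⟨h2, h4⟩
        · exact absurd (h1.trans h2.symm) hp
        · rw [h1]; exact h4
      · rcases h2 with h2 | ⟨h2, h4⟩
        · rw [h2, F_symm]; exact h3
        · refine F_trans K M p.1.1 i p.1.2 h1.symm h2 hp ?_ h4
          rw [F_symm]; exact h3
  refine ⟨A, ?_, ?_, hS⟩
  · have hsub : ({i, j, k} : Finset (Fin 6)) ⊆ A := by
      intro a ha
      simp only [Finset.mem_insert, Finset.mem_singleton] at ha
      rcases ha with rfl | rfl | rfl
      · exact hiA
      · exact hjA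
      · exact hkA
    have hc : ({i, j, k} : Finset (Fin 6)).card = 3 := Finset.card_eq_three.2
      ⟨i, j, k, hij, hik, hjk, rfl⟩
    rw [← hc]
    exact Finset.card_le_card hsub
  · have h1 : Module.finrank K M = Module.finrank K M.toSubmodule := rfl
    rw [h1, hM, Set.image_eq_range, finrank_span_eq_card, ← count A, Fintype.card_subtype]
    · congr 1
      ext p
      simp [hS p]
    · exact (linInd K).comp _ Subtype.val_injective

end Pool.Agent.W2helper53.TN
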